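import Pool.Agent.P8H64.TQ.Gap

/-!
# The Singer conjecture and an exponential bound for one `ℓ²`-Betti number

Let the flag complex of the finite graph `G` be a homology sphere and homology manifold of dimension `n - 1`
(`HSph n G`). The Davis complex of the right-angled Coxeter group `W G` is a contractible homology manifold of
dimension `n`, a manifold if the flag complex is a combinatorial sphere, and its quotients `M` by the torsion-free
subgroups `Γ` of finite index are closed aspherical `n`-manifolds with `b_i^(2)(M) = [W : Γ] · bet G i` and
`χ(M) = [W : Γ] · chiW G`.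

Q1 says that `χ(M) = 0` implies that all `ℓ²`-Betti numbers vanish. We show that for these manifolds Q1 (in all
dimensions) already follows if in infinitely many dimensions `n` the following is true: `χ(M) = 0` implies that the
`ℓ²`-Betti number in the single degree `⌊n/2⌋ + 1` is at most `A θ ^ v [W : Γ]`, where `v` is the number of
vertices, `A` is a constant and `θ < (7/2)^(1/18) = 1.072…`. It may grow exponentially.
-/

set_option autoImplicit false

namespace Pool.Agent.Results.MP_394d50_gt.ExponentialGap

open Pool.Agent.W907.SG Pool.Agent.TH652.Above Pool.Agent.P8H64.TP Pool.Agent.P8H64.TQ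

/-- **Result.** Let `C` be a class of flag homology spheres which is closed under joins and links of simplices and
contains the pentagon and the 18-gon. The following are equivalent:
(1) for all members all `ℓ²`-Betti numbers of the right-angled Coxeter group vanish if and only if its Euler
characteristic does;
(2) for all members, of dimension `n - 1` say, the `ℓ²`-Betti numbers vanish in the degrees `≠ n / 2`;
(3) there are `A` and `θ` with `θ ^ 18 < 7 / 2` and infinitely many `n` such that for all members of dimension
`n - 1` with `v` vertices and Euler characteristic zero the `ℓ²`-Betti number in the degree `⌊n / 2⌋ + 1` is at most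
`A θ ^ v`.
The class of all flag homology spheres is such a class. -/
theorem result :
    (∀ C : (∀ (n : ℕ) (V : Type) [Fintype V] [LinearOrder V], SimpleGraph V → Prop), GapClass C →
      List.TFAE [
        ∀ (n : ℕ) (V : Type) [Fintype V] [LinearOrder V] (G : SimpleGraph V), C n V G →
          ((∀ i : ℕ, L2Van G i) ↔ chiW G = 0),
        ∀ (n : ℕ) (V : Type) [Fintype V] [LinearOrder V] (G : SimpleGraph V), C n V G →
          ∀ i : ℕ, 2 * i ≠ n → L2Van G i,
        ∃ θ A : ℝ, 0 < θ ∧ θ ^ 18 < 7 / 2 ∧ ∀ N : ℕ, ∃ n : ℕ, N ≤ n ∧
          ∀ (V : Type) [Fintype V] [LinearOrder V] (G : SimpleGraph V), C n V G → chiW G = 0 →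
            bet G (n / 2 + 1) ≤ A * θ ^ Fintype.card V]) ∧
    GapClass (fun n V _ _ G => HSph n G) := by
  refine ⟨fun C hC => ?_, all_gap⟩
  have h21 : Singer C → QOne C := qone_of_singer
  have h13 : QOne C → Gap C := gap_of_qone
  have h32 : Gap C → Singer C := singer_of_gap hC
  tfae_have 1 → 3 := h13
  tfae_have 3 → 2 := h32
  tfae_have 2 → 1 := h21
  tfae_finish

end Pool.Agent.Results.MP_394d50_gt.ExponentialGap
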