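import Pool.Agent.P8H64.TP.Main

/-!
# A one percent law for the `ℓ²`-Betti numbers implies that they vanish outside the middle degree

Let the flag complex of the finite graph `G` be a homology sphere and homology manifold of dimension `n - 1`
(`HSph n G`). The Davis complex of the right-angled Coxeter group `W G` is a contractible homology manifold of
dimension `n`, a manifold if the flag complex is a combinatorial sphere, and its quotients `M` by the torsion-free
subgroups `Γ` of finite index are closed aspherical `n`-manifolds with `b_i^(2)(M) = [W : Γ] · bet G i` and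
`χ(M) = [W : Γ] · chiW G`.

The Singer conjecture for these manifolds says that for `n = 2 m` the middle `ℓ²`-Betti number is the sum of all
`ℓ²`-Betti numbers. We show that it is enough to know that it is at least one percent of the sum, for infinitely
many dimensions; more generally that a window of width `o(√m)` around the middle degree carries one percent of
the sum; or that the part far away from the middle is superexponentially small in the number of vertices. For the
class of all flag homology spheres each of these conditions is equivalent to Q1.
-/

set_option autoImplicit false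

namespace Pool.Agent.Results.MP_394d50_gt.OnePercentLaw

open Pool.Agent.W907.SG Pool.Agent.TH652.Above Pool.Agent.P8H64.TP

/-- **Result.** (A) Let `C` be a class of flag homology spheres which is closed under joins and contains the
pentagon (for example all of them, or all those which are combinatorial spheres). The following are equivalent:
(1) for all members, of dimension `n - 1` say, the `ℓ²`-Betti numbers of the right-angled Coxeter group vanish in
the degrees `≠ n / 2`;
(2) there is `δ > 0` such that for infinitely many `m` and all members of dimension `2 m - 1` the middle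
`ℓ²`-Betti number is at least `δ` times the sum of all `ℓ²`-Betti numbers;
(3) for every `K` there are `m ≥ 1` and `w` such that for all members of dimension `2 m - 1` the `ℓ²`-Betti numbers
in the degrees `m - w, …, m + w` sum up to at least `K (w + 1) / √m` times the sum of all `ℓ²`-Betti numbers;
(4) for every `ε > 0` there are infinitely many `m` such that for all members with `v` vertices and of dimension
`2 m - 1` and all degrees `i` with `|i - m| ≥ ε v` the `i`-th `ℓ²`-Betti number is at most `ε ^ v` times the sum
of all `ℓ²`-Betti numbers.
(B) Each of these conditions implies for all members of `C` that all the `ℓ²`-Betti numbers vanish if and only if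
the Euler characteristic does.
(C) For the class of all flag homology spheres, which is such a class, they are equivalent to this statement. -/
theorem result :
    (∀ C : (∀ (n : ℕ) (V : Type) [Fintype V] [LinearOrder V], SimpleGraph V → Prop), JoinClass C →
      List.TFAE [
        ∀ (n : ℕ) (V : Type) [Fintype V] [LinearOrder V] (G : SimpleGraph V), C n V G →
          ∀ i : ℕ, 2 * i ≠ n → L2Van G i,
        ∃ δ : ℝ, 0 < δ ∧ ∀ N : ℕ, ∃ m : ℕ, N ≤ m ∧
          ∀ (V : Type) [Fintype V] [LinearOrder V] (G : SimpleGraph V), C (2 * m) V G →
            δ * ∑ j ∈ Finset.range (2 * m + 1), bet G j ≤ bet G m,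
        ∀ K : ℝ, ∃ m : ℕ, 1 ≤ m ∧ ∃ w : ℕ,
          ∀ (V : Type) [Fintype V] [LinearOrder V] (G : SimpleGraph V), C (2 * m) V G →
            K * (w + 1) * ∑ j ∈ Finset.range (2 * m + 1), bet G j ≤
              √m * ∑ j ∈ Finset.Icc (m - w) (m + w), bet G j,
        ∀ ε : ℝ, 0 < ε → ∀ N : ℕ, ∃ m : ℕ, N ≤ m ∧
          ∀ (V : Type) [Fintype V] [LinearOrder V] (G : SimpleGraph V), C (2 * m) V G →
            ∀ i : ℕ, ε * Fintype.card V ≤ |(i : ℝ) - m| →
              bet G i ≤ ε ^ Fintype.card V * ∑ j ∈ Finset.range (2 * m + 1), bet G j] ∧
      ((∀ (n : ℕ) (V : Type) [Fintype V] [LinearOrder V] (G : SimpleGraph V), C n V G →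
          ∀ i : ℕ, 2 * i ≠ n → L2Van G i) →
        ∀ (n : ℕ) (V : Type) [Fintype V] [LinearOrder V] (G : SimpleGraph V), C n V G →
          ((∀ i : ℕ, L2Van G i) ↔ chiW G = 0))) ∧
    JoinClass (fun n V _ _ G => HSph n G) ∧
    ((∀ (n : ℕ) (V : Type) [Fintype V] [LinearOrder V] (G : SimpleGraph V), HSph n G →
        ((∀ i : ℕ, L2Van G i) ↔ chiW G = 0)) ↔
      ∀ (n : ℕ) (V : Type) [Fintype V] [LinearOrder V] (G : SimpleGraph V), HSph n G →
        ∀ i : ℕ, 2 * i ≠ n → L2Van G i) := by
  refine ⟨fun C hC => ⟨?_, fun h n V _ _ G hG => ?_⟩, ⟨fun n V _ _ G h => h, fun m n V U _ _ _ _ G H hG hH =>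
    hsph_join hG hH, hsph5⟩, ?_⟩
  · have h12 : Singer C → Percent C := percent_of_singer
    have h23 : Percent C → Window C := window_of_percent
    have h31 : Window C → Singer C := singer_of_window hC
    have h14 : Singer C → Tails C := tails_of_singer hC
    have h41 : Tails C → Singer C := singer_of_tails hC
    tfae_have 1 → 2 := h12
    tfae_have 2 → 3 := h23
    tfae_have 3 → 1 := h31
    tfae_have 1 → 4 := h14
    tfae_have 4 → 1 := h41
    tfae_finish
  · exact Pool.Agent.W907.SM.l2eul V G (n / 2) fun i hi => h n V G hG i (by omega)
  · constructor
    · intro h n V _ _ G hG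
      exact (Pool.Agent.N13.EU.eulerIff_iff n).1 (fun n' _ V _ _ G hG => h n' V G hG) n le_rfl V G hG
    · intro h n V _ _ G hG
      exact (Pool.Agent.N13.EU.eulerIff_iff n).2 (fun n' _ V _ _ G hG => h n' V G hG) n le_rfl V G hG

end Pool.Agent.Results.MP_394d50_gt.OnePercentLaw
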