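import Pool.Agent.P8H64.SV.Law

/-!
# The Singer conjecture and the number of simplices: a little-o is enough

Let the flag complex of the finite graph `G` with `v` vertices be a homology sphere and homology manifold of dimension
`n - 1` (`HSph n G`). The Davis complex of the right-angled Coxeter group `W G` is a contractible homology manifold of
dimension `n`, a manifold if the flag complex is a combinatorial sphere, and its quotients `M` by the torsion-free
subgroups `Γ` of finite index are closed aspherical `n`-manifolds with `b_i^(2)(M) = [W : Γ] · bet G i` and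
`χ(M) = [W : Γ] · chiW G`.

Trivially `bet G i` is at most the number of simplices of the flag complex, which is `O(v ^ ⌊n / 2⌋)` for fixed `n`. We
show that it is enough for the Singer conjecture to replace this by a `o`: for members with `O(v ^ k)` simplices,
`k = (n - 1) / 2 - s`, and one dimension `n` for each `s`; or to save arbitrarily large powers of `v`, in suitable
dimensions. More precisely such a bound in the dimension `n + 2 k` and the degree `i + k` gives zero in the dimension
`n` and the degree `i`.
-/

set_option autoImplicit false

namespace Pool.Agent.Results.MP_394d50_gt.PowerSaving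

open Pool.Agent.W907.SG Pool.Agent.TH652.Above Pool.Agent.P8H64.TP Pool.Agent.P8H64.SV

/-- **Result.** Let `C` be a class of flag homology spheres which is closed under joins and links and contains the
polygons with at least four vertices (for example all flag homology spheres, or those which are combinatorial spheres);
`C n V G` says that the flag complex of the graph `G` on `V` is a member, of dimension `n - 1`; put `v = |V|` and let
`f` be the number of its simplices, including the empty one.
(A) Let `k ≥ 1`. If for every `K` we have `bet G (i + k) = o(v ^ k)` for the members with `f ≤ K · v ^ k`, of dimension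
`n + 2 k - 1` and with Euler characteristic zero, then the `ℓ²`-Betti number of degree `i` is zero for all members of
dimension `n - 1` with Euler characteristic zero.
(B) The following are equivalent:
(1) for every member all `ℓ²`-Betti numbers vanish if and only if the Euler characteristic does (Q1);
(2) for every member, of dimension `n - 1` say, the `ℓ²`-Betti numbers vanish in the degrees `≠ n / 2`;
(3) for every `s` there is `k ≥ 1` such that for every `K` we have `bet G (s + k + 1) = o(v ^ k)` for the members of
dimension `2 (s + k)` with `f ≤ K · v ^ k`;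
(4) for every `s` there are `n ≥ s` and `A` with `bet G (⌊n / 2⌋ + 1) ≤ A · v ^ (n / 2 - s)` for all members of
dimension `n - 1` with Euler characteristic zero.
(C) The class of all flag homology spheres is such a class. -/
theorem result :
    (∀ C : (∀ (n : ℕ) (V : Type) [Fintype V] [LinearOrder V], SimpleGraph V → Prop), FlagClass C →
      (∀ n i k : ℕ, 1 ≤ k →
        (∀ K ε : ℝ, 0 < ε → ∃ v₀ : ℕ, ∀ (V : Type) [Fintype V] [LinearOrder V] (G : SimpleGraph V),
          C (n + 2 * k) V G → chiW G = 0 → v₀ ≤ Fintype.card V →
            (Nat.card {T : Finset V // G.IsClique (T : Set V)} : ℝ) ≤ K * (Fintype.card V : ℝ) ^ k →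
              bet G (i + k) ≤ ε * (Fintype.card V : ℝ) ^ k) →
        ∀ (V : Type) [Fintype V] [LinearOrder V] (G : SimpleGraph V), C n V G → chiW G = 0 → L2Van G i) ∧
      List.TFAE [
        ∀ (n : ℕ) (V : Type) [Fintype V] [LinearOrder V] (G : SimpleGraph V), C n V G →
          ((∀ i : ℕ, L2Van G i) ↔ chiW G = 0),
        ∀ (n : ℕ) (V : Type) [Fintype V] [LinearOrder V] (G : SimpleGraph V), C n V G →
          ∀ i : ℕ, 2 * i ≠ n → L2Van G i,
        ∀ s : ℕ, ∃ k : ℕ, 1 ≤ k ∧ ∀ K ε : ℝ, 0 < ε → ∃ v₀ : ℕ,
          ∀ (V : Type) [Fintype V] [LinearOrder V] (G : SimpleGraph V), C (2 * (s + k) + 1) V G →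
            v₀ ≤ Fintype.card V →
              (Nat.card {T : Finset V // G.IsClique (T : Set V)} : ℝ) ≤ K * (Fintype.card V : ℝ) ^ k →
                bet G (s + k + 1) ≤ ε * (Fintype.card V : ℝ) ^ k,
        ∀ s : ℕ, ∃ n : ℕ, s ≤ n ∧ ∃ A : ℝ,
          ∀ (V : Type) [Fintype V] [LinearOrder V] (G : SimpleGraph V), C n V G → chiW G = 0 →
            bet G (n / 2 + 1) ≤ A * (Fintype.card V : ℝ) ^ ((n : ℝ) / 2 - s)]) ∧
    FlagClass (fun n V _ _ G => HSph n G) := by
  refine ⟨fun C hC => ⟨fun n i k hk h V _ _ G hG hchi => van_of_little hC hk h V G hG hchi, ?_⟩, all_flag⟩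
  have h42 : Savings C → Pool.Agent.P8H64.TP.Singer C := singer_of_savings hC
  have h21 : Pool.Agent.P8H64.TP.Singer C → Pool.Agent.P8H64.TQ.QOne C := Pool.Agent.P8H64.TQ.qone_of_singer
  have h14 : Pool.Agent.P8H64.TQ.QOne C → Savings C := savings_of_qone
  have h23 : Pool.Agent.P8H64.TP.Singer C → OddLittle C := oddLittle_of_singer
  have h32 : OddLittle C → Pool.Agent.P8H64.TP.Singer C := singer_of_oddLittle hC
  tfae_have 1 → 4 := h14
  tfae_have 4 → 2 := h42
  tfae_have 2 → 1 := h21
  tfae_have 2 → 3 := h23
  tfae_have 3 → 2 := h32
  tfae_finish

end Pool.Agent.Results.MP_394d50_gt.PowerSaving
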